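import Pool.Agent.Work.MP_b5407d_lbm.Interface

/-! # Block DM: derivative of the masses of the edges -/

set_option autoImplicit false

open MeasureTheory Set Filter Topology

namespace Pool.LBM

namespace DM

/-- `(e^x - 1) / x` -/
noncomputable def phi (x : ℝ) : ℝ := ∫ t in (0 : ℝ)..1, Real.exp (t * x)

/-- its derivative -/
noncomputable def dphi (x : ℝ) : ℝ := ∫ t in (0 : ℝ)..1, t * Real.exp (t * x)

theorem phi_deriv (x : ℝ) : HasDerivAt phi (dphi x) x := by
  have h := intervalIntegral.hasDerivAt_integral_of_dominated_loc_of_deriv_le (μ := volume)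
    (a := (0 : ℝ)) (b := 1) (F := fun x t : ℝ => Real.exp (t * x))
    (F' := fun x t : ℝ => t * Real.exp (t * x)) (x₀ := x) (s := Metric.ball x 1)
    (bound := fun _ => Real.exp (|x| + 1)) (Metric.ball_mem_nhds x one_pos)
    (Filter.Eventually.of_forall fun y =>
      (by fun_prop : Continuous fun t : ℝ => Real.exp (t * y)).aestronglyMeasurable)
    ((by fun_prop : Continuous fun t : ℝ => Real.exp (t * x)).intervalIntegrable _ _)
    ((by fun_prop : Continuous fun t : ℝ => t * Real.exp (t * x)).aestronglyMeasurable)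
    (Filter.Eventually.of_forall fun t ht y hy => ?_)
    (intervalIntegrable_const)
    (Filter.Eventually.of_forall fun t _ y _ => ?_)
  · exact h.2
  · rw [uIoc_of_le zero_le_one, mem_Ioc] at ht
    rw [Metric.mem_ball, Real.dist_eq] at hy
    have h1 : |y| ≤ |x| + 1 := by
      have := abs_sub_abs_le_abs_sub y x
      linarith
    have h2 : t * y ≤ |x| + 1 := by
      have h3 : t * y ≤ |t * y| := le_abs_self _
      rw [abs_mul, abs_of_pos ht.1] at h3
      have h4 : t * |y| ≤ 1 * |y| := mul_le_mul_of_nonneg_right ht.2 (abs_nonneg y)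
      linarith
    rw [Real.norm_eq_abs, abs_mul, abs_of_pos ht.1, abs_of_pos (Real.exp_pos _)]
    calc t * Real.exp (t * y) ≤ 1 * Real.exp (t * y) :=
          mul_le_mul_of_nonneg_right ht.2 (Real.exp_pos _).le
      _ = Real.exp (t * y) := one_mul _
      _ ≤ _ := Real.exp_le_exp.2 h2
  · have h1 : HasDerivAt (fun y : ℝ => t * y) (t * 1) y := (hasDerivAt_id y).const_mul t
    refine h1.exp.congr_deriv ?_
    ring

theorem phi_id (x : ℝ) : phi x + x * dphi x = Real.exp x := by
  have hd : ∀ t ∈ uIcc (0 : ℝ) 1, HasDerivAt (fun t : ℝ => t * Real.exp (t * x))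
      (Real.exp (t * x) + x * (t * Real.exp (t * x))) t := by
    intro t _
    have h1 : HasDerivAt (fun t : ℝ => t * x) (1 * x) t := (hasDerivAt_id t).mul_const x
    have h2 := (hasDerivAt_id t).mul h1.exp
    refine h2.congr_deriv ?_
    simp only [id]
    ring
  have i1 : IntervalIntegrable (fun t : ℝ => Real.exp (t * x)) volume 0 1 :=
    (by fun_prop : Continuous fun t : ℝ => Real.exp (t * x)).intervalIntegrable _ _
  have i2 : IntervalIntegrable (fun t : ℝ => x * (t * Real.exp (t * x))) volume 0 1 :=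
    (by fun_prop : Continuous fun t : ℝ => x * (t * Real.exp (t * x))).intervalIntegrable _ _
  have h1 := intervalIntegral.integral_eq_sub_of_hasDerivAt hd (i1.add i2)
  have h2 := intervalIntegral.integral_add i1 i2
  have h3 : (∫ t in (0 : ℝ)..1, x * (t * Real.exp (t * x))) = x * dphi x :=
    intervalIntegral.integral_const_mul _ _
  have h4 : (1 : ℝ) * Real.exp (1 * x) - 0 * Real.exp (0 * x) = Real.exp x := by
    rw [one_mul, one_mul, zero_mul, sub_zero]
  rw [← h4, ← h1, h2, h3]
  rfl

/-- scaling -/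
theorem int_scale (A B L : ℝ) : (∫ r in (0 : ℝ)..L, Real.exp (A + r * B)) =
    L * (Real.exp A * phi (L * B)) := by
  have h1 := intervalIntegral.smul_integral_comp_mul_left (a := (0 : ℝ)) (b := 1)
    (fun r => Real.exp (A + r * B)) L
  rw [mul_zero, mul_one, smul_eq_mul] at h1
  have h2 : (∫ t in (0 : ℝ)..1, Real.exp A * Real.exp (t * (L * B))) =
      Real.exp A * phi (L * B) := intervalIntegral.integral_const_mul _ _
  rw [← h1, ← h2]
  refine congrArg (fun z => L * z) (intervalIntegral.integral_congr fun t _ => ?_)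
  rw [← Real.exp_add]
  ring_nf

theorem int_scale' (A B L a b : ℝ) :
    (∫ r in (0 : ℝ)..L, Real.exp (A + r * B) * (a + r * b)) =
      L * (Real.exp A * (a * phi (L * B) + L * b * dphi (L * B))) := by
  have h1 := intervalIntegral.smul_integral_comp_mul_left (a := (0 : ℝ)) (b := 1)
    (fun r => Real.exp (A + r * B) * (a + r * b)) L
  rw [mul_zero, mul_one, smul_eq_mul] at h1
  have i1 : IntervalIntegrable (fun t : ℝ => a * Real.exp (t * (L * B))) volume 0 1 :=
    (by fun_prop : Continuous fun t : ℝ => a * Real.exp (t * (L * B))).intervalIntegrable _ _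
  have i2 : IntervalIntegrable (fun t : ℝ => L * b * (t * Real.exp (t * (L * B)))) volume 0 1 :=
    (by fun_prop : Continuous fun t : ℝ => L * b * (t * Real.exp (t * (L * B)))).intervalIntegrable
      _ _
  have h2 := intervalIntegral.integral_add i1 i2
  have h3 : (∫ t in (0 : ℝ)..1, a * Real.exp (t * (L * B))) = a * phi (L * B) :=
    intervalIntegral.integral_const_mul _ _
  have h4 : (∫ t in (0 : ℝ)..1, L * b * (t * Real.exp (t * (L * B)))) =
      L * b * dphi (L * B) := intervalIntegral.integral_const_mul _ _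
  rw [h3, h4] at h2
  have h6 : (∫ t in (0 : ℝ)..1, Real.exp A * (a * Real.exp (t * (L * B)) +
      L * b * (t * Real.exp (t * (L * B))))) =
      Real.exp A * ∫ t in (0 : ℝ)..1, (a * Real.exp (t * (L * B)) +
      L * b * (t * Real.exp (t * (L * B)))) := intervalIntegral.integral_const_mul _ _
  rw [← h1, ← h2, ← h6]
  refine congrArg (fun z => L * z) (intervalIntegral.integral_congr fun t _ => ?_)
  have h5 : Real.exp (A + L * t * B) = Real.exp A * Real.exp (t * (L * B)) := by
    rw [← Real.exp_add]
    ring_nf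
  rw [h5]
  ring

end DM

open DM in
theorem blk_DM : Stmt_GT → Stmt_GF → Stmt_DM := by
  intro hGT hGF n θ P ℓ l lam W hG hper hpar k
  set τ : R2 := rt (θ k) with hτ
  set L' : ℝ := dt τ (W (k + 1) - W k) with hL'
  set L : ℝ := ℓ k with hL
  set A : ℝ := dt l (P k) with hA
  set B : ℝ := dt l τ with hB
  set A' : ℝ := dt lam (P k) + dt l (W k) with hA'
  set B' : ℝ := dt lam τ with hB'
  -- the masses near `0`
  have hev : (fun s : ℝ => FI (gth n θ) (ex (l + s • lam))
      (gh n θ (fun k => P k + s • W k)) k) =ᶠ[𝓝 0]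
      fun s => (L + s * L') * (Real.exp (A + s * A' + s ^ 2 * dt lam (W k)) *
        phi ((L + s * L') * (B + s * B'))) := by
    filter_upwards [hGT n θ P ℓ W hG hper hpar] with s hs
    rw [hGF n θ _ _ (ex (l + s • lam)) hs k, EI, ← int_scale]
    refine intervalIntegral.integral_congr fun r _ => ?_
    simp only [ex]
    congr 1
    rw [hA, hA', hB, hB', hτ]
    simp only [dt, rt, Prod.fst_add, Prod.snd_add, Prod.smul_fst, Prod.smul_snd, smul_eq_mul]
    ring
  refine HasDerivAt.congr_of_eventuallyEq ?_ hev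
  have d1 : HasDerivAt (fun s : ℝ => L + s * L') L' 0 := by
    refine (((hasDerivAt_id (0 : ℝ)).mul_const L').const_add L).congr_deriv ?_
    ring
  have d2 : HasDerivAt (fun s : ℝ => B + s * B') B' 0 := by
    refine (((hasDerivAt_id (0 : ℝ)).mul_const B').const_add B).congr_deriv ?_
    ring
  have d3 : HasDerivAt (fun s : ℝ => A + s * A' + s ^ 2 * dt lam (W k)) A' 0 := by
    refine ((((hasDerivAt_id (0 : ℝ)).mul_const A').const_add A).add
      ((hasDerivAt_pow 2 (0 : ℝ)).mul_const (dt lam (W k)))).congr_deriv ?_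
    simp
  have d4 := d1.mul d2
  have d5 : HasDerivAt (fun s : ℝ => phi ((L + s * L') * (B + s * B')))
      (dphi (L * B) * (L' * B + L * B')) 0 := by
    have h1 := phi_deriv (L * B)
    have h2 : (fun s : ℝ => (L + s * L') * (B + s * B')) 0 = L * B := by
      simp
    rw [← h2] at h1
    refine (h1.comp (0 : ℝ) d4).congr_deriv ?_
    simp
  have d6 := d1.mul (d3.exp.mul d5)
  refine d6.congr_deriv ?_
  have hedge := hG.edge k
  have e1 : ex l (P (k + 1)) = Real.exp A * Real.exp (L * B) := by
    rw [← Real.exp_add, ex, hedge]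
    congr 1
    rw [hA, hB, hτ, hL]
    simp only [dt, rt, Prod.fst_add, Prod.snd_add, Prod.smul_fst, Prod.smul_snd, smul_eq_mul]
    ring
  have e2 : EI (fun x => ex l x * (dt lam x + dt l (W k))) θ P ℓ k =
      L * (Real.exp A * (A' * phi (L * B) + L * B' * dphi (L * B))) := by
    rw [← int_scale', EI]
    refine intervalIntegral.integral_congr fun r _ => ?_
    simp only [ex]
    have h1 : dt l (P k + r • rt (θ k)) = A + r * B := by
      rw [hA, hB, hτ]
      simp only [dt, rt, Prod.fst_add, Prod.snd_add, Prod.smul_fst, Prod.smul_snd, smul_eq_mul]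
      ring
    have h2 : dt lam (P k + r • rt (θ k)) + dt l (W k) = A' + r * B' := by
      rw [hA', hB', hτ]
      simp only [dt, rt, Prod.fst_add, Prod.snd_add, Prod.smul_fst, Prod.smul_snd, smul_eq_mul]
      ring
    rw [h1, h2]
  rw [dms, e1, e2, ← phi_id (L * B)]
  simp only [Pi.mul_apply, zero_mul, add_zero, ne_eq, OfNat.ofNat_ne_zero, not_false_eq_true,
    zero_pow]
  ring

end Pool.LBM
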