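import Pool.Agent.Work.MP_b5407d_lbm.Interface

/-! # Block PX: calculus along a piecewise linear path, first barycentre identity -/

set_option autoImplicit false

open MeasureTheory Set Filter Topology

namespace Pool.LBM

namespace PX

/-! ### piecewise linear interpolation -/

theorem pl_eq (a : ℕ → ℝ) (k : ℕ) {t : ℝ} (h : ⌊t⌋₊ = k) :
    pl a t = a k + (t - k) * (a (k + 1) - a k) := by
  rw [pl, h]

theorem dpl_eq (a : ℕ → ℝ) (k : ℕ) {t : ℝ} (h : ⌊t⌋₊ = k) :
    dpl a t = a (k + 1) - a k := by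
  rw [dpl, h]

theorem pl_left (a : ℕ → ℝ) (k : ℕ) {t : ℝ} (h1 : (k : ℝ) < t) (h2 : t ≤ k + 1) :
    pl a t = a k + (t - k) * (a (k + 1) - a k) := by
  have h0 : (0 : ℝ) ≤ k := Nat.cast_nonneg k
  rcases h2.lt_or_eq with h | h
  · refine pl_eq a k ?_
    rw [Nat.floor_eq_iff (by linarith)]
    exact ⟨h1.le, h⟩
  · have h3 : ⌊t⌋₊ = k + 1 := by
      rw [h]
      exact_mod_cast Nat.floor_natCast (k + 1)
    rw [pl_eq a (k + 1) h3, h]
    push_cast
    ring

theorem pl_zero (a : ℕ → ℝ) : pl a 0 = a 0 := by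
  rw [pl_eq a 0 (by simp)]
  simp

theorem pl_nat (a : ℕ → ℝ) (k : ℕ) : pl a k = a k := by
  rw [pl_eq a k (by simp)]
  simp

theorem ev_floor {t : ℝ} (ht : ∀ k : ℕ, t ≠ k) : ∀ᶠ s in 𝓝 t, ⌊s⌋₊ = ⌊t⌋₊ := by
  rcases lt_or_ge t 0 with h | h
  · filter_upwards [Iio_mem_nhds h] with s hs
    rw [Nat.floor_of_nonpos h.le, Nat.floor_of_nonpos (le_of_lt hs)]
  · have h1 : (⌊t⌋₊ : ℝ) < t := lt_of_le_of_ne (Nat.floor_le h) (Ne.symm (ht _))
    have h2 : t < ⌊t⌋₊ + 1 := Nat.lt_floor_add_one t
    filter_upwards [Ioo_mem_nhds h1 h2] with s hs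
    have h0 : (0 : ℝ) ≤ ⌊t⌋₊ := Nat.cast_nonneg _
    rw [Nat.floor_eq_iff (by linarith [hs.1])]
    exact ⟨hs.1.le, hs.2⟩

theorem pl_hasDerivAt (a : ℕ → ℝ) {t : ℝ} (ht : ∀ k : ℕ, t ≠ k) :
    HasDerivAt (pl a) (dpl a t) t := by
  have h1 : HasDerivAt (fun s : ℝ => a ⌊t⌋₊ + (s - ⌊t⌋₊) * (a (⌊t⌋₊ + 1) - a ⌊t⌋₊))
      (1 * (a (⌊t⌋₊ + 1) - a ⌊t⌋₊)) t :=
    (((hasDerivAt_id t).sub_const _).mul_const _).const_add _
  rw [one_mul] at h1
  refine h1.congr_of_eventuallyEq ?_
  filter_upwards [ev_floor ht] with s hs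
  rw [pl_eq a _ hs]

theorem dpl_contAt (a : ℕ → ℝ) {t : ℝ} (ht : ∀ k : ℕ, t ≠ k) : ContinuousAt (dpl a) t := by
  have h : (fun _ : ℝ => dpl a t) =ᶠ[𝓝 t] dpl a := by
    filter_upwards [ev_floor ht] with s hs
    rw [dpl_eq a _ hs, dpl]
  exact (continuousAt_const (y := dpl a t)).congr h

theorem aff_cont (a : ℕ → ℝ) (k : ℕ) :
    Continuous fun t : ℝ => a k + (t - k) * (a (k + 1) - a k) := by
  fun_prop

theorem pl_cont (a : ℕ → ℝ) : Continuous (pl a) := by
  rw [continuous_iff_continuousAt]
  intro t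
  by_cases ht : ∀ k : ℕ, t ≠ k
  · exact (pl_hasDerivAt a ht).continuousAt
  · push Not at ht
    obtain ⟨k, rfl⟩ := ht
    rw [continuousAt_iff_continuous_left_right]
    constructor
    · rcases k with _ | k
      · have h1 : ContinuousAt (pl a) ((0 : ℕ) : ℝ) := by
          refine (aff_cont a 0).continuousAt.congr ?_
          filter_upwards [Iio_mem_nhds (show (((0 : ℕ) : ℝ)) < 1 by norm_num)] with s hs
          exact (pl_eq a 0 (Nat.floor_eq_zero.2 hs)).symm
        exact h1.continuousWithinAt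
      · refine (aff_cont a k).continuousWithinAt.congr_of_eventuallyEq ?_ ?_
        · have h1 : ((k : ℕ) : ℝ) < ((k + 1 : ℕ) : ℝ) := by push_cast; linarith
          filter_upwards [self_mem_nhdsWithin, mem_nhdsWithin_of_mem_nhds (Ioi_mem_nhds h1)] with
            s hs hs'
          refine pl_left a k hs' ?_
          have : s ≤ ((k + 1 : ℕ) : ℝ) := hs
          push_cast at this
          exact this
        · exact pl_left a k (by push_cast; linarith) (by push_cast; linarith)
    · refine (aff_cont a k).continuousWithinAt.congr_of_eventuallyEq ?_ ?_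
      · have h1 : ((k : ℕ) : ℝ) < (k : ℝ) + 1 := by linarith
        filter_upwards [self_mem_nhdsWithin, mem_nhdsWithin_of_mem_nhds (Iio_mem_nhds h1)] with
          s hs hs'
        have h2 : (k : ℝ) ≤ s := hs
        refine pl_eq a k ?_
        rw [Nat.floor_eq_iff (le_trans (Nat.cast_nonneg k) h2)]
        exact ⟨h2, hs'⟩
      · exact pl_eq a k (by simp)

theorem dpl_meas (a : ℕ → ℝ) : Measurable (dpl a) := by
  have h : dpl a = (fun k : ℕ => a (k + 1) - a k) ∘ (fun t : ℝ => ⌊t⌋₊) := rfl
  rw [h]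
  exact (measurable_from_nat).comp Nat.measurable_floor

theorem dpl_int (a : ℕ → ℝ) (c d : ℝ) : IntervalIntegrable (dpl a) volume c d := by
  have hb : ∀ t ∈ uIoc c d, ‖dpl a t‖ ≤ ∑ k ∈ Finset.range (⌊max c d⌋₊ + 1),
      |a (k + 1) - a k| := by
    intro t ht
    rw [dpl, Real.norm_eq_abs]
    refine Finset.single_le_sum (f := fun k => |a (k + 1) - a k|) (fun k _ => abs_nonneg _) ?_
    rw [Finset.mem_range, Nat.lt_succ_iff]
    refine Nat.floor_mono ?_
    rw [uIoc, mem_Ioc] at ht
    exact ht.2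
  refine (intervalIntegrable_const (c := ∑ k ∈ Finset.range (⌊max c d⌋₊ + 1),
      |a (k + 1) - a k|)).mono_fun (dpl_meas a).aestronglyMeasurable ?_
  refine (ae_restrict_mem measurableSet_uIoc).mono fun t ht => ?_
  refine (hb t ht).trans (le_abs_self _)

theorem mul_int {f : ℝ → ℝ} (hf : Continuous f) (a : ℕ → ℝ) (c d : ℝ) :
    IntervalIntegrable (fun t => f t * dpl a t) volume c d :=
  (dpl_int a c d).continuousOn_mul hf.continuousOn

theorem prim_cont {f : ℝ → ℝ} (hf : Continuous f) (a : ℕ → ℝ) (c : ℝ) :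
    Continuous fun t => ∫ s in c..t, f s * dpl a s :=
  intervalIntegral.continuous_primitive (fun _ _ => mul_int hf a _ _) c

theorem prim_deriv {f : ℝ → ℝ} (hf : Continuous f) (a : ℕ → ℝ) (c : ℝ) {t : ℝ}
    (ht : ∀ k : ℕ, t ≠ k) :
    HasDerivAt (fun t => ∫ s in c..t, f s * dpl a s) (f t * dpl a t) t := by
  refine intervalIntegral.integral_hasDerivAt_right (mul_int hf a _ _) ?_ ?_
  · exact (hf.measurable.mul (dpl_meas a)).stronglyMeasurable.stronglyMeasurableAtFilter
  · exact hf.continuousAt.mul (dpl_contAt a ht)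

/-- fundamental theorem of calculus for continuous functions which are differentiable off the
integers -/
theorem ftc {f f' : ℝ → ℝ} (m : ℕ) (hc : Continuous f)
    (hd : ∀ t : ℝ, (∀ k : ℕ, t ≠ k) → HasDerivAt f (f' t) t)
    (hi : IntervalIntegrable f' volume 0 m) : ∫ t in (0 : ℝ)..m, f' t = f m - f 0 := by
  refine MeasureTheory.integral_eq_of_hasDerivAt_off_countable_of_le f f' (Nat.cast_nonneg m)
    (s := range (fun k : ℕ => (k : ℝ))) (countable_range _) hc.continuousOn ?_ hi
  rintro t ⟨-, ht⟩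
  refine hd t fun k hk => ht ⟨k, hk.symm⟩

/-! ### the exponential integrals -/

theorem mE_deriv (v x : ℝ) : HasDerivAt (mE v) (Real.exp (-(v * x))) x := by
  have hc : Continuous fun s : ℝ => Real.exp (-(v * s)) := by fun_prop
  exact intervalIntegral.integral_hasDerivAt_right (hc.intervalIntegrable _ _)
    hc.stronglyMeasurable.stronglyMeasurableAtFilter hc.continuousAt

theorem mL_deriv (v x : ℝ) : HasDerivAt (mL v) (x * Real.exp (-(v * x))) x := by
  have hc : Continuous fun s : ℝ => s * Real.exp (-(v * s)) := by fun_prop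
  exact intervalIntegral.integral_hasDerivAt_right (hc.intervalIntegrable _ _)
    hc.stronglyMeasurable.stronglyMeasurableAtFilter hc.continuousAt

theorem mE_cont (v : ℝ) : Continuous (mE v) :=
  continuous_iff_continuousAt.2 fun x => (mE_deriv v x).continuousAt

theorem mL_cont (v : ℝ) : Continuous (mL v) :=
  continuous_iff_continuousAt.2 fun x => (mL_deriv v x).continuousAt

theorem mE_zero (v : ℝ) : mE v 0 = 0 := by simp [mE]

theorem mL_zero (v : ℝ) : mL v 0 = 0 := by simp [mL]

theorem mul_mE (w y : ℝ) : w * mE w y = 1 - Real.exp (-(w * y)) := by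
  have h1 : ∀ y, HasDerivAt (fun y => w * mE w y + Real.exp (-(w * y))) 0 y := by
    intro y
    have h2 : HasDerivAt (fun y : ℝ => Real.exp (-(w * y))) (Real.exp (-(w * y)) * (-(w * 1))) y :=
      (((hasDerivAt_id y).const_mul w).neg).exp
    have h3 := ((mE_deriv w y).const_mul w).add h2
    refine h3.congr_deriv ?_
    ring
  have h4 := is_const_of_deriv_eq_zero (fun y => (h1 y).differentiableAt)
    (fun y => (h1 y).deriv) y 0
  simp only [mE_zero, mul_zero, neg_zero, Real.exp_zero, zero_add] at h4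
  linarith

section path

variable (v w : ℝ) (a b : ℕ → ℝ)

theorem pe_cont : Continuous (pe v w a b) := by
  have h1 := pl_cont a
  have h2 := pl_cont b
  unfold pe
  fun_prop

theorem pe_pos (t : ℝ) : 0 < pe v w a b t := Real.exp_pos _

theorem pe_deriv {t : ℝ} (ht : ∀ k : ℕ, t ≠ k) : HasDerivAt (pe v w a b)
    (-(v * dpl a t + w * dpl b t) * pe v w a b t) t := by
  have h1 := pl_hasDerivAt a ht
  have h2 := pl_hasDerivAt b ht
  have h3 := (((h1.const_mul v).neg).sub (h2.const_mul w)).exp
  refine h3.congr_deriv ?_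
  simp only [pe, Pi.sub_apply, Pi.neg_apply]
  ring

theorem pq_cont : Continuous (pq v w a b) := by
  have h1 := pl_cont a
  have h2 := (mE_cont w).comp (pl_cont b)
  unfold pq
  exact (by fun_prop : Continuous fun t => Real.exp (-(v * pl a t))).mul h2

theorem pq_deriv {t : ℝ} (ht : ∀ k : ℕ, t ≠ k) : HasDerivAt (pq v w a b)
    (-(v * pq v w a b t * dpl a t) + pe v w a b t * dpl b t) t := by
  have h1 := pl_hasDerivAt a ht
  have h2 := pl_hasDerivAt b ht
  have h3 := ((h1.const_mul v).neg).exp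
  have h4 := (mE_deriv w (pl b t)).comp t h2
  have h5 := h3.mul h4
  refine h5.congr_deriv ?_
  have h6 : pe v w a b t = Real.exp (-(v * pl a t)) * Real.exp (-(w * pl b t)) := by
    rw [pe, ← Real.exp_add]
    ring_nf
  rw [h6]
  simp only [pq, Function.comp, Pi.neg_apply]
  ring

theorem pe_add (t : ℝ) : pe v w a b t + w * pq v w a b t = Real.exp (-(v * pl a t)) := by
  have h6 : pe v w a b t = Real.exp (-(v * pl a t)) * Real.exp (-(w * pl b t)) := by
    rw [pe, ← Real.exp_add]
    ring_nf
  have h7 := mul_mE w (pl b t)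
  rw [h6, pq]
  have h8 : w * (Real.exp (-(v * pl a t)) * mE w (pl b t)) =
      Real.exp (-(v * pl a t)) * (w * mE w (pl b t)) := by ring
  rw [h8, h7]
  ring

theorem pX_cont : Continuous (pX v w a b) := prim_cont (pe_cont v w a b) a 0

theorem pu_cont (C : ℝ) : Continuous (pu v w a b C) := by
  unfold pu
  exact (continuous_const.sub (pX_cont v w a b)).div (pe_cont v w a b)
    fun t => (pe_pos v w a b t).ne'

theorem pVx_cont (C κ : ℝ) : Continuous (pVx v w a b C κ) :=
  continuous_const.add (prim_cont (pu_cont v w a b C) a 0)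

theorem pVy_cont (m : ℕ) (C η : ℝ) : Continuous (pVy v w a b m C η) :=
  continuous_const.add (prim_cont (pu_cont v w a b C) b m)

theorem pVx_deriv (C κ : ℝ) {t : ℝ} (ht : ∀ k : ℕ, t ≠ k) :
    HasDerivAt (pVx v w a b C κ) (pu v w a b C t * dpl a t) t :=
  (prim_deriv (pu_cont v w a b C) a 0 ht).const_add _

theorem pVy_deriv (m : ℕ) (C η : ℝ) {t : ℝ} (ht : ∀ k : ℕ, t ≠ k) :
    HasDerivAt (pVy v w a b m C η) (pu v w a b C t * dpl b t) t :=
  (prim_deriv (pu_cont v w a b C) b m ht).const_add _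

end path

end PX

open PX in
theorem blk_PX : Stmt_PC → Stmt_PX := by
  intro hPC m a b v w C κ η ha0 ham hκ
  obtain ⟨-, hc, -⟩ := hPC m a b v w C κ η ha0 ham
  have hc := hc hκ
  have cx := pl_cont a
  have cy := pl_cont b
  have ce := pe_cont v w a b
  have cq := pq_cont v w a b
  have cu := pu_cont v w a b C
  have cVx := pVx_cont v w a b C κ
  have cVy := pVy_cont v w a b m C η
  have cL := (mL_cont v).comp cx
  have cexp : Continuous fun t => Real.exp (-(v * pl a t)) := by fun_prop
  have hx0 : pl a 0 = 0 := by rw [pl_zero, ha0]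
  have hxm : pl a m = 0 := by rw [pl_nat, ham]
  -- first derivative
  set F' : ℝ → ℝ := fun t => (-(v * pq v w a b t * dpl a t) + pe v w a b t * dpl b t) *
    (pVx v w a b C κ t * pl a t) + pq v w a b t * (pu v w a b C t * dpl a t * pl a t +
      pVx v w a b C κ t * dpl a t) with hF'
  set G' : ℝ → ℝ := fun t => pu v w a b C t * dpl b t * mL v (pl a t) +
    pVy v w a b m C η t * (pl a t * Real.exp (-(v * pl a t)) * dpl a t) with hG'
  have iF : IntervalIntegrable F' volume 0 m := by
    have h1 := mul_int (f := fun t => -(v * pq v w a b t) * (pVx v w a b C κ t * pl a t) +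
      pq v w a b t * (pu v w a b C t * pl a t + pVx v w a b C κ t)) (by fun_prop) a 0 m
    have h2 := mul_int (f := fun t => pe v w a b t * (pVx v w a b C κ t * pl a t))
      (by fun_prop) b 0 m
    refine (h1.add h2).congr ?_
    intro t _
    simp only [hF']
    ring
  have iG : IntervalIntegrable G' volume 0 m := by
    have h1 := mul_int (f := fun t => pu v w a b C t * (mL v ∘ pl a) t) (cu.mul cL) b 0 m
    have h2 := mul_int (f := fun t => pVy v w a b m C η t *
      (pl a t * Real.exp (-(v * pl a t)))) (by fun_prop) a 0 m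
    refine (h1.add h2).congr ?_
    intro t _
    simp only [hG', Function.comp]
    ring
  have eF : ∫ t in (0 : ℝ)..m, F' t = 0 := by
    have h1 := ftc (f := fun t => pq v w a b t * (pVx v w a b C κ t * pl a t)) (f' := F') m
      (by fun_prop) (fun t ht => ?_) iF
    · rw [h1, hx0, hxm]
      ring
    · refine ((pq_deriv v w a b ht).mul ((pVx_deriv v w a b C κ ht).mul
        (pl_hasDerivAt a ht))).congr_deriv ?_
      simp only [hF', Pi.mul_apply]
  have eG : ∫ t in (0 : ℝ)..m, G' t = 0 := by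
    have h1 := ftc (f := fun t => pVy v w a b m C η t * (mL v ∘ pl a) t) (f' := G') m
      (cVy.mul cL) (fun t ht => ?_) iG
    · rw [h1]
      simp only [Function.comp, hx0, hxm, mL_zero]
      ring
    · refine ((pVy_deriv v w a b m C η ht).mul ((mL_deriv v (pl a t)).comp t
        (pl_hasDerivAt a ht))).congr_deriv ?_
      simp only [hG', Function.comp]
  -- integrability of the five terms
  have i1 : IntervalIntegrable (fun t => pe v w a b t * pl a t *
      (pVx v w a b C κ t * dpl b t - pVy v w a b m C η t * dpl a t)) volume 0 m := by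
    have h1 := mul_int (f := fun t => pe v w a b t * pl a t * pVx v w a b C κ t)
      (by fun_prop) b 0 m
    have h2 := mul_int (f := fun t => pe v w a b t * pl a t * pVy v w a b m C η t)
      (by fun_prop) a 0 m
    refine (h1.sub h2).congr ?_
    intro t _
    ring
  have i2 : IntervalIntegrable (fun t => pl a t ^ 2 * pq v w a b t * dpl a t) volume 0 m :=
    mul_int (f := fun t => pl a t ^ 2 * pq v w a b t) (by fun_prop) a 0 m
  have i3 : IntervalIntegrable (fun t => pl a t * pq v w a b t * dpl a t) volume 0 m :=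
    mul_int (f := fun t => pl a t * pq v w a b t) (by fun_prop) a 0 m
  have i4 : IntervalIntegrable (fun t => mL v (pl a t) * pu v w a b C t * dpl b t)
      volume 0 m :=
    mul_int (f := fun t => (mL v ∘ pl a) t * pu v w a b C t) (cL.mul cu) b 0 m
  have i5 : IntervalIntegrable (fun t => pq v w a b t * pVx v w a b C κ t * dpl a t)
      volume 0 m :=
    mul_int (f := fun t => pq v w a b t * pVx v w a b C κ t) (by fun_prop) a 0 m
  have i3' := i3.const_mul (pc v w a b m C κ η)
  have e1 := intervalIntegral.integral_sub i1 i2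
  have e2 := intervalIntegral.integral_add (i1.sub i2) i3'
  have e3 := intervalIntegral.integral_sub ((i1.sub i2).add i3') i4
  have e4 := intervalIntegral.integral_add (((i1.sub i2).add i3').sub i4) i5
  have e5 : (∫ t in (0 : ℝ)..m, pc v w a b m C κ η * (pl a t * pq v w a b t * dpl a t)) =
      pc v w a b m C κ η * ∫ t in (0 : ℝ)..m, pl a t * pq v w a b t * dpl a t :=
    intervalIntegral.integral_const_mul _ _
  have hfin : (∫ t in (0 : ℝ)..m, (F' t - G' t)) = 0 := by
    rw [intervalIntegral.integral_sub iF iG, eF, eG, sub_zero]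
  have e6 : (∫ t in (0 : ℝ)..m, (pe v w a b t * pl a t *
      (pVx v w a b C κ t * dpl b t - pVy v w a b m C η t * dpl a t) -
      pl a t ^ 2 * pq v w a b t * dpl a t +
      pc v w a b m C κ η * (pl a t * pq v w a b t * dpl a t) -
      mL v (pl a t) * pu v w a b C t * dpl b t +
      pq v w a b t * pVx v w a b C κ t * dpl a t)) = 0 := by
    refine Eq.trans (intervalIntegral.integral_congr fun t ht => ?_) hfin
    rw [uIcc_of_le (Nat.cast_nonneg m)] at ht
    have h1 := hc t ht
    have h2 := pe_add v w a b t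
    simp only [hF', hG']
    rw [← h1, ← h2]
    ring
  linarith [e1, e2, e3, e4, e5, e6]

end Pool.LBM
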